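import Pool.Agent.W670.LL.Stm

set_option autoImplicit false

/-! Project LL (helper670), part FR: Frobenius is additive on points. -/

namespace Pool.Agent.W639.LL

open Pool.Agent.W670.LL WeierstrassCurve

theorem fr_aux (q : ℕ) [Fact q.Prime] (K : Type) [Field K] [DecidableEq K] [CharP K q]
    (W : WeierstrassCurve (ZMod q)) (W' : WeierstrassCurve.Affine K)
    (e : (W.map (@algebraMap (ZMod q) K _ _ (ZMod.algebra K q))).toAffine = W') :
    ∃ φ : W'.Point →+ W'.Point, φ 0 = 0 ∧
      ∀ x y h, ∃ h', φ (Affine.Point.some x y h) = Affine.Point.some (x ^ q) (y ^ q) h' := by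
  let _ : Algebra (ZMod q) K := ZMod.algebra K q
  let f : K →ₐ[ZMod q] K :=
    { frobenius K q with
      commutes' := fun r => by
        show frobenius K q (algebraMap (ZMod q) K r) = algebraMap (ZMod q) K r
        rw [frobenius_def, ← map_pow, ZMod.pow_card] }
  subst e
  refine ⟨Affine.Point.map (R := ZMod q) (W' := W) f, rfl, fun x y h => ?_⟩
  exact ⟨(WeierstrassCurve.Affine.baseChange_nonsingular (W := W) f.injective ..).mpr h, rfl⟩

theorem fr : S_FR := by
  intro q _ K _ _ _
  have h := fr_aux q K ⟨0, 6, 0, -3, 0⟩ (Cv (6 : K) (-3)) (by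
    unfold Cv WeierstrassCurve.map
    simp
    exact ⟨map_ofNat _ 6, map_ofNat _ 3⟩)
  obtain ⟨φ, h1, h2⟩ := h
  exact ⟨φ, h1, h2⟩

end Pool.Agent.W639.LL
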